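import Mathlib

set_option autoImplicit false

namespace Pool.Agent.Results.MP_1cd45c_al.Identity

open LaurentPolynomial

/-- `A n r = A_n^r`; the value `A_n^{-1} = 0` is built into the case `r = 0`. -/
noncomputable def A : ℕ → ℕ → ℤ[T;T⁻¹]
  | 0, 0 => 1
  | 0, _ + 1 => 0
  | n + 1, 0 => A n 0
  | n + 1, r + 1 => T (r + 1) * A n (r + 1) + (T (n - r) - T r) * A n r

/-- The `q`-triangle `b_{k,l}`. -/
noncomputable def b : ℕ → ℕ → ℤ[T;T⁻¹]
  | 0, 0 => 1
  | 0, l + 1 => T (l + 1) * b l 0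
  | k + 1, l => T (-1) * b k (l + 1) + (T (l + 1) - T l) * b l k
termination_by k l => (k + l, k)
decreasing_by all_goals (simp only [Prod.lex_def]; omega)

section
variable (r : ℝ)

def eps (j : ℤ) : ℝ := if j % 6 = 0 ∨ j % 6 = 1 then 1 else if j % 6 = 3 ∨ j % 6 = 4 then -1 else 0

noncomputable def lam (j : ℤ) : ℝ := eps j * r ^ ((j - 2) ^ 2 - 1)
noncomputable def xi (v : ℤ → ℝ) : ℤ → ℝ := fun j => v (j + 1) + v (j - 1)
noncomputable def eta (v : ℤ → ℝ) : ℤ → ℝ := fun j => r ^ 6 * v (j + 1) + (r ^ 6)⁻¹ * v (j - 1)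
def Rel (v w : ℤ → ℝ) : Prop := ∀ j : ℤ, r ^ 3 * v (j + 1) = r ^ (-6 * j) * w (-j)
def Odd3 (v : ℤ → ℝ) : Prop := ∀ j : ℤ, r ^ (6 * j) * v (j - 1) + r ^ (-6 * j) * v (-j - 1) = 0
noncomputable def Q : ℕ → ℤ → ℝ
  | 0 => lam r
  | s + 1 => fun i => (r ^ 6)⁻¹ * Q s (i - 1) + r ^ 3 * r ^ (6 * (s - i)) * Q s (-i)

variable {r} (hr : r ≠ 0)
include hr

lemma zp (a b : ℤ) (h : a = b) : r ^ a = r ^ b := by rw [h]

lemma rel_lam : Rel r (lam r) (lam r) := fun j => by
  have e : eps (j + 1) = eps (-j) := by unfold eps; split_ifs <;> first | rfl | omega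
  rw [lam, lam, e, mul_left_comm, mul_left_comm (r ^ _), ← zpow_ofNat, ← zpow_add₀ hr,
    ← zpow_add₀ hr]
  congr 2
  ring

lemma odd_lam : Odd3 r (lam r) := fun j => by
  have e : eps (j - 1) = -eps (-j - 1) := by unfold eps; split_ifs <;> first | omega | simp
  rw [lam, lam, e, mul_left_comm, mul_left_comm (r ^ _), ← zpow_add₀ hr, ← zpow_add₀ hr,
    zp hr (6 * j + ((j - 1 - 2) ^ 2 - 1)) (-6 * j + ((-j - 1 - 2) ^ 2 - 1)) (by ring)]
  ring

lemma rel_xi {v w : ℤ → ℝ} (h : Rel r v w) : Rel r (xi v) (eta r w) := fun j => by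
  have h1 := h (j + 1)
  have h2 := h (j - 1)
  rw [zp hr _ (-6 * j - 6) (by ring), zpow_sub₀ hr, show -(j + 1) = -j - 1 by ring] at h1
  rw [zp hr _ (-6 * j + 6) (by ring), zpow_add₀ hr, show -(j - 1) = -j + 1 by ring,
    show j - 1 + 1 = j + 1 - 1 by ring] at h2
  simp only [xi, eta, zpow_ofNat] at *
  linear_combination h1 + h2

lemma rel_eta {v w : ℤ → ℝ} (h : Rel r v w) : Rel r (eta r v) (xi w) := fun j => by
  have h1 := h (j + 1)
  have h2 := h (j - 1)
  rw [zp hr _ (-6 * j - 6) (by ring), zpow_sub₀ hr, show -(j + 1) = -j - 1 by ring] at h1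
  rw [zp hr _ (-6 * j + 6) (by ring), zpow_add₀ hr, show -(j - 1) = -j + 1 by ring,
    show j - 1 + 1 = j + 1 - 1 by ring] at h2
  simp only [xi, eta, zpow_ofNat] at *
  field_simp at h1 h2 ⊢
  linear_combination r ^ 3 * h1 + h2

lemma odd_eta {v : ℤ → ℝ} (h : Odd3 r v) : Odd3 r (eta r v) := fun j => by
  have h1 := h (j + 1)
  have h2 := h (j - 1)
  rw [zp hr _ (6 * j + 6) (by ring), zp hr (-6 * _) (-6 * j - 6) (by ring), zpow_sub₀ hr,
    zpow_add₀ hr, show -(j + 1) - 1 = -j - 1 - 1 by ring, show j + 1 - 1 = j - 1 + 1 by ring] at h1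
  rw [zp hr _ (6 * j - 6) (by ring), zp hr (-6 * _) (-6 * j + 6) (by ring), zpow_sub₀ hr,
    zpow_add₀ hr, show -(j - 1) - 1 = -j - 1 + 1 by ring] at h2
  simp only [eta, zpow_ofNat] at *
  linear_combination h1 + h2

omit hr in
lemma odd_zero {v : ℤ → ℝ} (h : Odd3 r v) : v (-1) = 0 := by
  have := h 0
  simp at this
  linarith

lemma Q_one : Q r 1 = eta r (Q r 0) := by
  funext i
  have := rel_lam hr i
  simp only [Q, eta, Nat.cast_zero, zero_sub, mul_neg, ← neg_mul]
  linear_combination -r ^ 3 * this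

lemma Q_rec (s : ℕ) (i : ℤ) :
    eta r (Q r (s + 1)) i = Q r (s + 2) i + (1 - r ^ (12 * (s + 1 : ℤ))) * Q r s i := by
  simp only [Q, eta, neg_neg, add_sub_cancel_right, Nat.cast_add, Nat.cast_one]
  rw [zp hr (6 * (s - (i + 1))) (6 * s - 6 * i - 6) (by ring),
    zp hr (6 * (s + 1 - i)) (6 * s - 6 * i + 6) (by ring),
    zp hr (6 * (s - -i)) (6 * s + 6 * i) (by ring),
    zp hr (12 * _) (6 * s + 6 * s + 12) (by ring), show -(i + 1) = -i - 1 by ring]
  simp only [zpow_add₀ hr, zpow_sub₀ hr, zpow_ofNat]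
  have := zpow_ne_zero (6 * i) hr
  field_simp
  ring

lemma Q_odd (s : ℕ) : Odd3 r (Q r s) ∧ Odd3 r (Q r (s + 1)) := by
  induction s with
  | zero => exact ⟨odd_lam hr, by rw [Q_one hr]; exact odd_eta hr (odd_lam hr)⟩
  | succ s ih =>
    refine ⟨ih.2, fun j => ?_⟩
    have h1 := odd_eta hr ih.2 j
    rw [Q_rec hr, Q_rec hr] at h1
    linear_combination h1 - (1 - r ^ (12 * (s + 1 : ℤ))) * ih.1 j

lemma Q_zero (s : ℕ) : Q r s 0 = r ^ (3 * (s : ℤ) ^ 2 + 3) := by
  induction s with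
  | zero => norm_num [Q, lam, eps]
  | succ s ih =>
    simp only [Q, zero_sub, neg_zero, odd_zero (Q_odd hr s).1, ih, mul_zero, zero_add]
    rw [← zpow_ofNat, ← zpow_add₀ hr, ← zpow_add₀ hr]
    exact zp hr _ _ (by push_cast; ring)

omit hr in
lemma comm : Function.Commute xi (eta r) := fun v => by
  funext j
  simp only [xi, eta, add_sub_cancel_right, sub_add_cancel]
  ring

lemma rel_M (k l : ℕ) : Rel r (xi^[k] ((eta r)^[l] (lam r))) (xi^[l] ((eta r)^[k] (lam r))) := by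
  induction k with
  | zero =>
    induction l with
    | zero => exact rel_lam hr
    | succ l ih =>
      simp only [Function.iterate_zero, id, Function.iterate_succ_apply'] at ih ⊢
      exact rel_eta hr ih
  | succ k ih =>
    rw [Function.iterate_succ_apply', Function.iterate_succ_apply', (comm.iterate_left l).eq]
    exact rel_xi hr ih

lemma odd_M (l : ℕ) : Odd3 r ((eta r)^[l] (lam r)) := by
  induction l with
  | zero => exact odd_lam hr
  | succ l ih => rw [Function.iterate_succ_apply']; exact odd_eta hr ih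

noncomputable def ev : ℤ[T;T⁻¹] →+* ℝ :=
  eval₂ (Int.castRingHom ℝ) (Units.mk0 (r ^ (-12 : ℤ)) (zpow_ne_zero _ hr))

lemma ev_T (n : ℤ) : ev hr (T n) = r ^ (-12 * n) := by
  rw [ev, eval₂_T, Units.val_zpow_eq_zpow_val, Units.val_mk0, zpow_mul]

lemma eta_zero (l : ℕ) : (eta r)^[l + 1] (lam r) 0 = r ^ 3 * xi^[l] (lam r) 0 := by
  have h1 := rel_M hr 0 l 0
  have h2 := odd_zero (odd_M hr l)
  simp only [Function.iterate_zero, id, Function.iterate_succ_apply', eta, zero_add, zero_sub,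
    h2, mul_zero, zpow_zero, neg_zero] at h1 ⊢
  linear_combination r ^ 3 * h1

lemma ev_b (k l : ℕ) : ev hr (b k l) * r ^ (3 * (k + l + 1 : ℤ) ^ 2 + 6 * l) =
    xi^[k] ((eta r)^[l] (lam r)) 0 := by
  induction k, l using b.induct with
  | case1 => norm_num [b, lam, eps]
  | case2 l ih =>
    simp only [Function.iterate_zero, id] at ih ⊢
    rw [eta_zero hr, ← ih, b, map_mul, ev_T, mul_right_comm, mul_left_comm, mul_comm, ← zpow_ofNat,
      ← zpow_add₀ hr, ← zpow_add₀ hr]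
    congr 1
    exact zp hr _ _ (by push_cast; ring)
  | case3 k l ih1 ih2 =>
    have h1 := rel_M hr k l 0
    rw [Function.iterate_succ_apply', (comm.iterate_left k).eq] at ih1
    rw [Function.iterate_succ_apply', b]
    simp only [xi, eta, map_add, map_mul, map_sub, ev_T, zero_add, zero_sub, mul_zero, zpow_zero,
      neg_zero, Nat.cast_succ] at h1 ih1 ⊢
    set a : ℤ := 3 * (l + k + 1) ^ 2 + 6 * k
    rw [zp hr (3 * _ + _) (a + 12 * l + 15) (by simp only [a]; ring)] at ih1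
    rw [zp hr (3 * _ + _) (a + 12 * l + 9) (by simp only [a]; ring),
      zp hr (-12 * (l + 1)) (-12 - 12 * l) (by ring), zp hr (-12 * l) (0 - 12 * l) (by ring)]
    simp only [zpow_add₀ hr, zpow_sub₀ hr, zpow_ofNat, zpow_neg, Int.reduceNeg, Int.reduceMul]
      at ih1 ⊢
    have := zpow_ne_zero (12 * (l : ℤ)) hr
    field_simp at ih1 ⊢
    linear_combination r ^ 3 * ih1 + (1 - r ^ 12) * ih2 - (1 - r ^ 12) * h1

omit hr in
lemma A_zero (n k : ℕ) (h : n < 2 * k) : A n k = 0 := by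
  induction n generalizing k with
  | zero => cases k with
    | zero => omega
    | succ k => rfl
  | succ n ih => cases k with
    | zero => omega
    | succ k =>
      rw [A, ih _ (by omega)]
      by_cases h2 : n < 2 * k
      · simp [ih _ h2]
      · rw [show (n : ℤ) - k = k by omega]; simp

omit hr in
lemma A_left (n : ℕ) : A n 0 = 1 := by
  induction n with
  | zero => rfl
  | succ n ih => exact ih

lemma expand (n : ℕ) : ∀ i, (eta r)^[n] (lam r) i =
    ∑ k ∈ Finset.range (n + 1), ev hr (A n k) * r ^ (12 * (k * (n - k) : ℤ)) * Q r (n - 2 * k) i := by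
  induction n with
  | zero => simp [A, Q]
  | succ n ih =>
    intro i
    have h1 : ∀ k, ev hr (A n k) * r ^ (12 * (k * (n - k) : ℤ)) * eta r (Q r (n - 2 * k)) i =
        ev hr (A n k) * r ^ (12 * (k * (n - k) : ℤ)) * Q r (n + 1 - 2 * k) i +
        ev hr ((T (n - k) - T k) * A n k) * r ^ (12 * ((k + 1) * (n - k) : ℤ)) *
          Q r (n + 1 - 2 * (k + 1)) i := by
      intro k
      rcases lt_trichotomy n (2 * k) with h | h | h
      · simp [A_zero n k h]
      · rw [show (n : ℤ) - k = k by omega, show n - 2 * k = 0 by omega,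
          show n + 1 - 2 * k = 1 by omega, Q_one hr]
        simp
      · obtain ⟨s, rfl⟩ : ∃ s, n = 2 * k + (s + 1) := ⟨n - 2 * k - 1, by omega⟩
        rw [show 2 * k + (s + 1) - 2 * k = s + 1 by omega, Q_rec hr,
          show 2 * k + (s + 1) + 1 - 2 * k = s + 2 by omega,
          show 2 * k + (s + 1) + 1 - 2 * (k + 1) = s by omega, map_mul, map_sub, ev_T, ev_T]
        set a : ℤ := 12 * (k * (((2 * k + (s + 1) : ℕ) : ℤ) - k))
        rw [zp hr (12 * ((k + 1) * _)) (a + 12 * k + 12 * (s + 1)) (by simp only [a]; push_cast; ring),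
          zp hr (-12 * (_ - _)) (0 - 12 * k - 12 * (s + 1)) (by push_cast; ring),
          zp hr (-12 * k) (0 - 12 * k) (by ring)]
        simp only [zpow_add₀ hr, zpow_sub₀ hr]
        have := zpow_ne_zero (12 * (k : ℤ)) hr
        have := zpow_ne_zero (12 * (s + 1 : ℤ)) hr
        field_simp
    have h2 : (eta r)^[n + 1] (lam r) i = ∑ k ∈ Finset.range (n + 1),
        ev hr (A n k) * r ^ (12 * (k * (n - k) : ℤ)) * eta r (Q r (n - 2 * k)) i := by
      rw [Function.iterate_succ_apply', eta, ih, ih, Finset.mul_sum, Finset.mul_sum,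
        ← Finset.sum_add_distrib]
      exact Finset.sum_congr rfl fun k _ => by rw [eta]; ring
    have h3 : ∑ k ∈ Finset.range (n + 1),
        ev hr (A n k) * r ^ (12 * (k * (n - k) : ℤ)) * Q r (n + 1 - 2 * k) i =
        ∑ k ∈ Finset.range (n + 2),
        ev hr (A n k) * r ^ (12 * (k * (n - k) : ℤ)) * Q r (n + 1 - 2 * k) i := by
      rw [Finset.sum_range_succ _ (n + 1), A_zero n (n + 1) (by omega)]; simp
    rw [h2, Finset.sum_congr rfl fun k _ => h1 k, Finset.sum_add_distrib, h3,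
      Finset.sum_range_succ' _ (n + 1), Finset.sum_range_succ' _ (n + 1), add_right_comm,
      ← Finset.sum_add_distrib, A_left, A_left]
    congr 1
    · refine Finset.sum_congr rfl fun k _ => ?_
      rw [A, map_add, map_mul (ev hr) (T _), ev_T]
      push_cast
      rw [zp hr (12 * ((k + 1) * (n - (k + 1)))) (-12 * (k + 1) + 12 * ((k + 1) * (n - k)))
        (by ring), zp hr (12 * ((k + 1) * (n + 1 - (k + 1)))) (12 * ((k + 1) * (n - k))) (by ring),
        zpow_add₀ hr]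
      ring

lemma ev_main (n : ℕ) : ev hr (∑ k ∈ Finset.range (n + 2), A (n + 1) k) = ev hr (b n 0) := by
  have h1 := ev_b hr n 0
  have h2 := expand hr (n + 1) 0
  simp only [Function.iterate_zero, id] at h1
  rw [eta_zero hr, ← h1] at h2
  have h3 : ∀ k ∈ Finset.range (n + 2), ev hr (A (n + 1) k) *
      r ^ (12 * (k * (((n + 1 : ℕ) : ℤ) - k))) * Q r (n + 1 - 2 * k) 0 =
      ev hr (A (n + 1) k) * r ^ (3 * (n + 1 : ℤ) ^ 2 + 3) := fun k _ => by
    by_cases h : n + 1 < 2 * k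
    · simp [A_zero _ _ h]
    · rw [Q_zero hr, mul_assoc, ← zpow_add₀ hr, Nat.cast_sub (by omega)]
      congr 1
      exact zp hr _ _ (by push_cast; ring)
  rw [Finset.sum_congr rfl h3, ← Finset.sum_mul, ← map_sum, mul_left_comm, ← zpow_ofNat,
    ← zpow_add₀ hr, zp hr _ (3 * (n + 1 : ℤ) ^ 2 + 3) (by push_cast; ring)] at h2
  exact (mul_right_cancel₀ (zpow_ne_zero _ hr) h2).symm

end

lemma ev_inj (f : ℤ[T;T⁻¹]) (h : ∀ (r : ℝ) (hr : r ≠ 0), ev hr f = 0) : f = 0 := by
  obtain ⟨n, g, hg⟩ := f.exists_T_pow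
  have h1 : g.map (Int.castRingHom ℝ) = 0 := by
    refine Polynomial.eq_zero_of_infinite_isRoot _ ((Set.Ioi_infinite (0 : ℝ)).mono fun x hx => ?_)
    have hx' : (0 : ℝ) < x := hx
    have hr : (0 : ℝ) < x ^ (-(12 : ℝ)⁻¹) := Real.rpow_pos_of_pos hx' _
    have h2 := congrArg (ev hr.ne') hg
    rw [map_mul, h, zero_mul, ev, eval₂_toLaurent, Units.val_mk0, ← Real.rpow_intCast,
      ← Real.rpow_mul hx'.le] at h2
    norm_num at h2
    simpa [Polynomial.eval_map] using h2
  rw [Polynomial.map_eq_zero_iff Int.cast_injective] at h1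
  rw [h1, map_zero] at hg
  exact (isUnit_T n).mul_left_eq_zero.mp hg.symm

/-- `A_n(q) = B_n(q) = b_{n-1,0}(q)` for all `n ≥ 1`. -/
theorem result (n : ℕ) (hn : 1 ≤ n) : ∑ r ∈ Finset.range (n + 1), A n r = b (n - 1) 0 := by
  obtain ⟨n, rfl⟩ := Nat.exists_eq_add_of_le' hn
  refine sub_eq_zero.mp (ev_inj _ fun r hr => ?_)
  rw [map_sub, ev_main hr, Nat.add_sub_cancel, sub_self]

end Pool.Agent.Results.MP_1cd45c_al.Identity
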